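import Pool.Agent.helper35.LinPrimes.Sieve

/-!
# Project JT (MP_ebc808_nt), module BT: Brun-Titchmarsh for general moduli
-/

set_option autoImplicit false

namespace Pool.Agent.helper7.JT

open Finset Pool.Agent.Lib.BrunHooley Pool.Agent.helper35.LinPrimes

theorem BT_h (d : ℕ) (hd : 1 ≤ d) : h d = d / d.totient := by
  have h1 : ((d.totient : ℚ)) = d * ∏ p ∈ d.primeFactors, (1 - (p : ℚ)⁻¹) :=
    Nat.totient_eq_mul_prod_factors d
  have h2 : ((d.totient : ℝ)) = d * ∏ p ∈ d.primeFactors, (1 - (p : ℝ)⁻¹) := by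
    have := congrArg (fun t : ℚ => (t : ℝ)) h1
    push_cast at this
    exact this
  have h3 : (h d : ℝ) = (∏ p ∈ d.primeFactors, (1 - (p : ℝ)⁻¹))⁻¹ := by
    unfold h
    rw [← Finset.prod_inv_distrib]
    refine Finset.prod_congr rfl fun p _ => ?_
    rw [one_div]
  have hφ : (0 : ℝ) < d.totient := by exact_mod_cast Nat.totient_pos.2 hd
  have hd' : (0 : ℝ) < d := by exact_mod_cast hd
  have h4 : ∏ p ∈ d.primeFactors, (1 - (p : ℝ)⁻¹) = d.totient / d := by
    rw [h2]; field_simp
  rw [h3, h4, inv_div]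

theorem BT_aux : ∃ C₁ : ℝ, 0 < C₁ ∧ ∃ X₁ : ℕ, ∀ X ≥ X₁, ∀ d p₀ : ℕ, 1 ≤ d → d ^ 2 ≤ X →
    Nat.Coprime p₀ d →
    (#{p ∈ Nat.primesLE X | p ≡ p₀ [MOD d]} : ℝ) ≤ C₁ * X / (d.totient * Real.log X) := by
  classical
  obtain ⟨B, hB⟩ := interval_sieve 2
  refine ⟨32 * (B + 1) + 12, by positivity, max 16 ((4 ^ (B + 1)) ^ 2), ?_⟩
  intro X hX d p₀ hd0 hd hcop
  have hX16 : 16 ≤ X := (le_max_left _ _).trans hX
  have hXB : (4 ^ (B + 1)) ^ 2 ≤ X := (le_max_right _ _).trans hX
  have hdr0 : (0 : ℝ) < d := by exact_mod_cast hd0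
  set v := p₀ % d with hv
  set y := Nat.sqrt X with hy
  have hyB : 4 ^ (B + 1) ≤ y := Nat.le_sqrt'.mpr hXB
  obtain ⟨r, hr1, hr2⟩ := pick_r B y hyB
  set z := Z r with hz
  have hz2 : 2 ≤ z := two_le_Z r
  set C : ℕ → Finset ℕ := fun q => if q ∣ d then ∅ else
    {((-(v : ZMod q)) * (d : ZMod q)⁻¹).val} with hC
  have hCc : ∀ q, #(C q) ≤ 1 := by
    intro q; simp only [hC]; split_ifs <;> simp
  have hClt : ∀ q, q.Prime → ∀ c ∈ C q, c < q := by
    intro q hq c hc
    have : NeZero q := ⟨hq.ne_zero⟩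
    simp only [hC] at hc
    split_ifs at hc with h
    · simp at hc
    · rw [mem_singleton] at hc
      rw [hc]; exact ZMod.val_lt _
  have hs := (hB r 0 (X / d) C hClt (fun q => (hCc q).trans (by norm_num))
    (fun q hq => lt_of_le_of_lt (hCc q) hq.one_lt)).2
  have hprod := prod_bt z d (by omega) (by omega) (fun q => #(C q))
    (fun q _ hqd => by simp [hC, hqd]) (fun q hq => lt_of_le_of_lt (hCc q) hq.one_lt)
  have hhd : h d = d / d.totient := BT_h d hd0
  have hφ : (0 : ℝ) < d.totient := by exact_mod_cast Nat.totient_pos.2 hd0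
  have hφd : (d.totient : ℝ) ≤ d := by exact_mod_cast Nat.totient_le d
  -- counting
  have hcount : #{p ∈ Nat.primesLE X | p ≡ p₀ [MOD d]} ≤ z + (1 + #(sifted 0 (X / d) z C)) := by
    have hsub : {p ∈ Nat.primesLE X | p ≡ p₀ [MOD d]} ⊆ Icc 1 z ∪
        {p ∈ Nat.primesLE X | p ≡ p₀ [MOD d] ∧ z < p} := by
      intro p hp
      rw [mem_filter] at hp
      rw [mem_union, mem_Icc, mem_filter]
      have := (Nat.mem_primesLE.mp hp.1).2.pos
      rcases Nat.lt_or_ge z p with h | h
      · right; exact ⟨hp.1, hp.2, h⟩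
      · left; exact ⟨this, h⟩
    have hinj : #{p ∈ Nat.primesLE X | p ≡ p₀ [MOD d] ∧ z < p}
        ≤ #(insert 0 (sifted 0 (X / d) z C)) := by
      refine card_le_card_of_injOn (fun p => p / d) ?_ ?_
      · intro p hp
        rw [mem_coe, mem_filter, Nat.mem_primesLE] at hp
        obtain ⟨⟨hpX, hpp⟩, hpm, hzp⟩ := hp
        rw [mem_coe, mem_insert]
        rcases Nat.eq_zero_or_pos (p / d) with h0 | h0
        · left; exact h0
        · right
          rw [sifted, mem_filter, mem_Ioc]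
          refine ⟨⟨h0, by rw [zero_add]; exact Nat.div_le_div_right hpX⟩, ?_⟩
          intro q hq hmem
          obtain ⟨hqz, hqp⟩ := Nat.mem_primesLE.mp hq
          have : Fact q.Prime := ⟨hqp⟩
          have : NeZero q := ⟨hqp.ne_zero⟩
          simp only [hC] at hmem
          split_ifs at hmem with hqd
          · simp at hmem
          · rw [mem_singleton] at hmem
            have hdz : (d : ZMod q) ≠ 0 := by
              rw [Ne, ZMod.natCast_eq_zero_iff]; exact hqd
            have h1 : ((p / d : ℕ) : ZMod q) = (-(v : ZMod q)) * (d : ZMod q)⁻¹ := by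
              have := congrArg (fun t : ℕ => (t : ZMod q)) hmem
              simp only [ZMod.natCast_mod, ZMod.natCast_val, ZMod.cast_id', id_eq] at this
              exact this
            have h2 : (p : ZMod q) = 0 := by
              have e : p = v + d * (p / d) := by
                have h3 : p % d = v := by rw [hv]; exact hpm
                have := Nat.mod_add_div p d
                omega
              rw [e]
              push_cast
              rw [h1]
              field_simp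
              ring
            rw [ZMod.natCast_eq_zero_iff] at h2
            have := (Nat.prime_dvd_prime_iff_eq hqp hpp).mp h2
            omega
      · intro p hp p' hp' hpp'
        rw [mem_coe, mem_filter] at hp hp'
        simp only at hpp'
        have h1 : p % d = p' % d := hp.2.1.trans hp'.2.1.symm
        have e1 := Nat.mod_add_div p d
        have e2 := Nat.mod_add_div p' d
        rw [← e1, ← e2, h1, hpp']
    calc _ ≤ #(Icc 1 z ∪ {p ∈ Nat.primesLE X | p ≡ p₀ [MOD d] ∧ z < p}) := card_le_card hsub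
      _ ≤ #(Icc 1 z) + #{p ∈ Nat.primesLE X | p ≡ p₀ [MOD d] ∧ z < p} := card_union_le _ _
      _ ≤ z + #(insert 0 (sifted 0 (X / d) z C)) := by
          rw [Nat.card_Icc]; gcongr; omega
      _ ≤ z + (1 + #(sifted 0 (X / d) z C)) := by
          gcongr
          rw [add_comm]
          exact card_insert_le _ _
  -- real estimates
  have hXr : (0 : ℝ) < X := by exact_mod_cast (by omega : 0 < X)
  have hlogX : 0 < Real.log X := Real.log_pos (by exact_mod_cast (by omega : 1 < X))
  set s := Real.sqrt X with hs_def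
  have hs0 : 0 < s := Real.sqrt_pos.mpr hXr
  have hs2 : s ^ 2 = X := Real.sq_sqrt hXr.le
  set u := Real.sqrt s with hu_def
  have hu0 : 0 < u := Real.sqrt_pos.mpr hs0
  have hu2 : u ^ 2 = s := Real.sq_sqrt hs0.le
  have hu4 : (X : ℝ) = u ^ 4 := by rw [← hs2, ← hu2]; ring
  have hlogu : Real.log X ≤ 4 * u := log_le_of_sq hu0 hu4
  have hu2' : 2 ≤ u := by
    by_contra hcon
    push Not at hcon
    have h1 : u ^ 4 < 2 ^ 4 := pow_lt_pow_left₀ hcon hu0.le (by norm_num)
    have h2 : (16 : ℝ) ≤ X := by exact_mod_cast hX16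
    rw [hu4] at h2
    linarith
  have hys : (y : ℝ) ≤ s := by
    rw [hs_def]
    refine Real.le_sqrt_of_sq_le ?_
    have : y ^ 2 ≤ X := Nat.sqrt_le' X
    exact_mod_cast this
  have hsy : s < y + 1 := by
    rw [hs_def, Real.sqrt_lt' (by positivity)]
    have : X < (y + 1) ^ 2 := Nat.lt_succ_sqrt' X
    exact_mod_cast this
  have huy : u ≤ y := by nlinarith
  have hlogy : Real.log X / 4 ≤ Real.log y := by
    have h1 : Real.log X = 4 * Real.log u := by rw [hu4, Real.log_pow]; norm_num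
    have h2 : Real.log u ≤ Real.log y := Real.log_le_log hu0 huy
    linarith
  have hds : (d : ℝ) ≤ s := by
    rw [hs_def]
    refine Real.le_sqrt_of_sq_le ?_
    exact_mod_cast hd
  have hlogz : 0 < Real.log z := Real.log_pos (by exact_mod_cast (by omega : 1 < z))
  -- `W = z^(B+1)`
  set W : ℝ := (z : ℝ) ^ (B + 1) with hW
  have hz1 : (1 : ℝ) ≤ z := by exact_mod_cast (by omega : 1 ≤ z)
  have hW1 : 1 ≤ W := one_le_pow₀ hz1
  have hWz : (z : ℝ) ≤ W := le_self_pow₀ hz1 (by omega)
  have hWzB : (z : ℝ) ^ B ≤ W := pow_le_pow_right₀ hz1 (by omega)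
  have hWu : W ≤ u := by
    have h1 : W ^ 2 ≤ s := by
      rw [hW, ← pow_mul]
      have : (z : ℝ) ^ ((B + 1) * 2) ≤ y := by
        rw [mul_comm]; exact_mod_cast hr1
      exact this.trans hys
    rw [← hu2] at h1
    exact (pow_le_pow_iff_left₀ (by positivity) hu0.le (by norm_num)).mp h1
  have hXd : ((X / d : ℕ) : ℝ) ≤ X / d := Nat.cast_div_le
  -- main term
  have hmain : 2 * ((X / d : ℕ) : ℝ) * ∏ q ∈ Nat.primesLE z, (1 - ((#(C q) : ℕ) : ℝ) / q)
      ≤ 32 * (B + 1) * (X / (d.totient * Real.log X)) := by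
    have h1 : ∏ q ∈ Nat.primesLE z, (1 - ((#(C q) : ℕ) : ℝ) / q)
        ≤ h d * (16 * (B + 1)) / Real.log X := by
      refine hprod.trans ?_
      have h2 : Real.log X ≤ 16 * (B + 1) * Real.log (z + 1) := by
        have h3 : Real.log z ≤ Real.log (z + 1) := Real.log_le_log (by positivity) (by linarith)
        have h4 : 4 * ((B : ℝ) + 1) * Real.log z ≤ 4 * (B + 1) * Real.log (z + 1) := by gcongr
        linarith
      have h5 : 0 < Real.log ((z : ℝ) + 1) := Real.log_pos (by linarith)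
      rw [div_le_div_iff₀ h5 hlogX]
      have h6 : h d * Real.log X ≤ h d * (16 * (B + 1) * Real.log (z + 1)) :=
        mul_le_mul_of_nonneg_left h2 (h_pos d).le
      linarith
    calc _ ≤ 2 * ((X : ℝ) / d) * (h d * (16 * (B + 1)) / Real.log X) := by
          refine mul_le_mul (by linarith) h1 ?_ (by positivity)
          refine prod_nonneg fun q hq => ?_
          have hqp := (Nat.mem_primesLE.mp hq).2
          rw [sub_nonneg, div_le_one (by exact_mod_cast hqp.pos)]
          exact_mod_cast ((hCc q).trans hqp.one_lt.le)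
      _ = _ := by rw [hhd]; field_simp; ring
  have herr : (z : ℝ) + 1 + (z : ℝ) ^ B ≤ 12 * (X / (d.totient * Real.log X)) := by
    have h1 : (z : ℝ) + 1 + (z : ℝ) ^ B ≤ 3 * u := by linarith
    refine h1.trans ?_
    rw [← mul_div_assoc, le_div_iff₀ (by positivity)]
    calc 3 * u * (d.totient * Real.log X) ≤ 3 * u * (s * (4 * u)) := by
          gcongr
          exact hφd.trans hds
      _ = 12 * X := by rw [hu4, ← hu2]; ring
  have hc : (#{p ∈ Nat.primesLE X | p ≡ p₀ [MOD d]} : ℝ) ≤ z + (1 + #(sifted 0 (X / d) z C)) := by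
    exact_mod_cast hcount
  calc _ ≤ (z : ℝ) + (1 + #(sifted 0 (X / d) z C)) := hc
    _ ≤ z + (1 + (2 * ((X / d : ℕ) : ℝ) * ∏ q ∈ Nat.primesLE z, (1 - ((#(C q) : ℕ) : ℝ) / q)
          + (z : ℝ) ^ B)) := by
        have := hs
        gcongr
    _ ≤ 32 * (B + 1) * (X / (d.totient * Real.log X)) +
        12 * (X / (d.totient * Real.log X)) := by linarith
    _ = _ := by ring

theorem bt_gen : ∃ C : ℝ, 0 < C ∧ ∃ x₀ : ℕ, ∀ x : ℕ, x₀ ≤ x → ∀ q c : ℕ, 1 ≤ q → q ^ 2 ≤ x →
    Nat.Coprime c q → (((Icc 1 x).filter fun p => p.Prime ∧ p % q = c % q).card : ℝ)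
      ≤ C * x / (Nat.totient q * Real.log x) := by
  obtain ⟨C, hC, x₀, h⟩ := BT_aux
  refine ⟨C, hC, x₀, fun x hx q c hq hqx hcop => ?_⟩
  refine le_trans ?_ (h x hx q c hq hqx hcop)
  have hsub : ((Icc 1 x).filter fun p => p.Prime ∧ p % q = c % q) ⊆
      {p ∈ Nat.primesLE x | p ≡ c [MOD q]} := by
    intro p hp
    rw [mem_filter, mem_Icc] at hp
    rw [mem_filter, Nat.mem_primesLE]
    exact ⟨⟨hp.1.2, hp.2.1⟩, hp.2.2⟩
  exact_mod_cast card_le_card hsub

end Pool.Agent.helper7.JT
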